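import Pool.Agent.EMK.EKZ

/-!
# Differentiability of Mather's beta function: general kinetic energies on flat tori

Let `E` be a Euclidean space with a basis `b`, `Λ` the lattice spanned by `b`, `k : E → ℝ` a kinetic energy: `C²`, with
positive definite second derivative of size `‖p‖^(d-2)` at infinity, `d > 1`.  For `H (x, p) = k (p - A (x)) + V (x)` on the
torus `E/Λ`, `A` (a 1-form of class `C¹`) and `V` (continuous) `Λ`-periodic: if Mather's beta function is differentiable at all
homology classes outside some ball, then `A` is closed and `V` is constant, and `H` is `C⁰`-integrable.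

Sketch.  If not, some Fourier mode `m = j k` (`k` primitive) of `V`, or of `A·ω` with `ω ⟂ m`, does not vanish.  For `h = tω`,
`t` large and `ω ∈ k^⊥` generic, the average `f` of the perturbation over the tori `{k·x = s}` governs the dynamics, and `f` is
not constant.  A subgradient `c` of `beta` at `h` has a smooth almost-subsolution (Hahn-Banach and Riesz), which oscillates
little on each torus `{k·x = s}` (an orbit of direction `ω` fills it).  In the slab where `f` is below its maximum there is a
strict local subsolution, and gluing it in with a smooth clamp yields an almost-subsolution of class `c ± δ k` with the same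
constant.  Hence `c + δ k` or `c - δ k` is another subgradient at `h`, and `beta` is not differentiable there.
-/

set_option autoImplicit false

open Module MeasureTheory Pool.H45.Mather Pool.Agent.LRT Pool.Agent.EMK

namespace Pool.Agent.Results.MP_0ba9f4_an.KineticMagnetic

theorem result {n : ℕ} (hn : 2 ≤ n) {E : Type*} [NormedAddCommGroup E] [InnerProductSpace ℝ E]
    [FiniteDimensional ℝ E] [CompleteSpace E] [MeasurableSpace E] [BorelSpace E] (b : Basis (Fin n) ℝ E)
    (d La R : ℝ) (k : E → ℝ) (A : E → E) (V : E → ℝ) (hd : 1 < d) (hLa : 1 ≤ La) (hk : Kin d La R k)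
    (hA : ContDiff ℝ 1 A) (hAp : Per b A) (hV : Continuous V) (hVp : Per b V) :
    [ContDiff ℝ 1 (betaL b (Leg (KMag k A V))),
      ∃ R : ℝ, ∀ h : E, R ≤ ‖h‖ → DifferentiableAt ℝ (betaL b (Leg (KMag k A V))) h,
      (∀ x u v : E, inner ℝ (fderiv ℝ A x u) v = inner ℝ (fderiv ℝ A x v) u) ∧
        ∀ x y : E, V x = V y].TFAE ∧
    (ContDiff ℝ 1 (betaL b (Leg (KMag k A V))) → C0Int b (KMag k A V)) :=
  emk_main hn b d La R k A V hd hLa hk hA hAp hV hVp

end Pool.Agent.Results.MP_0ba9f4_an.KineticMagnetic
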