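import Pool.Agent.LRW.StU

/-!
MP_0ba9f4_an.  Every integrable Tonelli Hamiltonian `h (p)` on `ℝⁿ/ℤⁿ × ℝⁿ`, `n ≥ 2`, has a neighbourhood in the
strong (Whitney) `C^s` topology in which local differentiability of Mather's beta function implies local
`C⁰`-integrability; for `U = univ` this is the implication from global differentiability to `C⁰`-integrability
(`FolOver.c0int` in `Pool.Agent.LRW.KO`).
-/

set_option autoImplicit false

open MeasureTheory Module Set Filter Topology Pool.Agent.LRT Pool.Agent.LRW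

namespace Pool.Agent.Results.MP_0ba9f4_an.NearIntegrableLocal

theorem result (n : ℕ) (hn : 2 ≤ n) : ∃ s : ℕ, ∀ h : RE n → ℝ, IntTonelli s h → ∀ δ : ℝ, 0 < δ →
    ∃ η : ℝ → ℝ, Antitone η ∧ (∀ r, 0 < η r) ∧ ∀ f : RE n × RE n → ℝ, PerT f → JetLe s η f →
    ∀ U : Set (RE n), (∀ p ∈ U, ∀ w, ‖w - gradient h p‖ < δ → DifferentiableAt ℝ (betaH (Hsum h f)) w) →
    FolOver (bs n) (Hsum h f) U :=
  near_int_loc n hn

end Pool.Agent.Results.MP_0ba9f4_an.NearIntegrableLocal
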