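import Pool.Agent.LRW.FF

/-!
MP_0ba9f4_an.  Rigidity for Finsler metrics on the torus `ℝⁿ/ℤⁿ`, `n ≥ 2`, which are close to a Minkowski norm.
-/

set_option autoImplicit false

open MeasureTheory Module Set Filter Topology Pool.Agent.LRT Pool.Agent.LRW

namespace Pool.Agent.Results.MP_0ba9f4_an.NearMinkowski

theorem result (n : ℕ) (hn : 2 ≤ n) : ∃ s : ℕ, ∀ h : RE n → ℝ, Mink s h → ∃ ε > 0,
    ∀ H : RE n × RE n → ℝ, Fins (bs n) s ε h H → (∀ v, v ≠ 0 → DifferentiableAt ℝ (betaH H) v) → C0Int (bs n) H :=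
  finsler n hn

end Pool.Agent.Results.MP_0ba9f4_an.NearMinkowski
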