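import Pool.Agent.LRW.StU

/-!
MP_0ba9f4_an.  Perturbations of order two of uniformly convex integrable Hamiltonians `h (p)` on
`ℝⁿ/ℤⁿ × ℝⁿ`, `n ≥ 2`, over any set `U` of momenta.
-/

set_option autoImplicit false

open MeasureTheory Module Set Filter Topology Pool.Agent.LRT Pool.Agent.LRW

namespace Pool.Agent.Results.MP_0ba9f4_an.SymbolClass

theorem result (n : ℕ) (hn : 2 ≤ n) : ∃ s : ℕ, ∀ La M δ : ℝ, 1 ≤ La → 0 < δ → ∃ ε : ℝ, 0 < ε ∧
    ∀ (h : RE n → ℝ) (f : RE n × RE n → ℝ), SymU s La M h → ContDiff ℝ s f → PerT f →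
    UConv La (Hsum h f) → ∀ U : Set (RE n), SymLe s ε (Nb δ U) f →
    DiffNb δ h U (betaH (Hsum h f)) → FolOver (bs n) (Hsum h f) U :=
  symb_class n hn

end Pool.Agent.Results.MP_0ba9f4_an.SymbolClass
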